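import Pool.Agent.H23.DM.TargetsG
import Pool.Agent.H31.SX.TargetsS
import Pool.Agent.H28.RC.Targets1
import Pool.Agent.H63.TMB.PS

/-!
# The sums over the dual lattice with finite correlations
-/

set_option autoImplicit false

open NumberField NumberField.InfinitePlace NumberField.Units
  NumberField.Units.dirichletUnitTheorem MeasureTheory Set Filter Complex
open scoped nonZeroDivisors ENNReal

namespace Pool.Agent.H40.DM.PS

open Pool.Agent.H25.HK Pool.Agent.H23.LB Pool.Agent.H23.LC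
open Pool.Agent.H28.RC (Rep ft idl)
open Pool.Agent.H29.DW (dg Rl lf wv Pos Wg cpar Ci om zs rv Wt dg_rv Rl_wv wv_zero norm_wv
  card_places_le mult_pos')
open Pool.Agent.H31.SW (EE itg FF HD DB DS dif Pf GG G2 DD PP pF dK pz ps Tf WG)
open Pool.Agent.H27.TM
open Pool.Agent.H63.TMB.PS (Am_mono norm_tsum_le decay prod_dg)
open Pool.Agent.H23.DM

/-- summing over a lattice a function which vanishes outside a sublattice -/
theorem norm_tsum_sub {K : Type} [Field K] [NumberField K] (L L' : FI K)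
    (hL : ∀ x ∈ L', x ∈ L) (f : K → ℂ) (A B : ℝ) (w : K → ℝ) (h0 : ‖f 0‖ ≤ A)
    (hz : ∀ x ∈ L, f x ≠ 0 → x ∈ L') (hw : ∀ x ∈ L', x ≠ 0 → ‖f x‖ ≤ B * w x)
    (hs : Summable (fun x : {x : K // x ∈ L' ∧ x ≠ 0} => w x.1)) :
    ‖∑' x : {x : K // x ∈ L}, f x‖ ≤ A + B * ∑' x : {x : K // x ∈ L' ∧ x ≠ 0}, w x.1 := by
  obtain ⟨i, hi1⟩ : ∃ i : {x : K // x ∈ L'} → {x : K // x ∈ L}, ∀ x, (i x).1 = x.1 :=
    ⟨fun x => ⟨x.1, hL x.1 x.2⟩, fun x => rfl⟩
  have hi : Function.Injective i := by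
    intro a b hab
    have h5 := congrArg Subtype.val hab
    rw [hi1, hi1] at h5
    exact Subtype.ext h5
  have h1 : ∑' x : {x : K // x ∈ L'}, (fun x : {x : K // x ∈ L} => f x.1) (i x) =
      ∑' x : {x : K // x ∈ L}, (fun x : {x : K // x ∈ L} => f x.1) x := by
    refine hi.tsum_eq (f := fun x : {x : K // x ∈ L} => f x.1) ?_
    intro x hx
    exact ⟨⟨x.1, hz x.1 x.2 hx⟩, Subtype.ext (hi1 _)⟩
  have h2 : ∑' x : {x : K // x ∈ L'}, (fun x : {x : K // x ∈ L} => f x.1) (i x) =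
      ∑' x : {x : K // x ∈ L'}, f x.1 := by
    refine tsum_congr fun x => ?_
    show f (i x).1 = f x.1
    rw [hi1]
  rw [← h1, h2]
  exact norm_tsum_le L' f A B w h0 hw hs

/-- the identity of (PO) with the correlation integrals and the finite correlation -/
theorem poisson (hPO : Pool.Agent.H31.SX.X_PO) (hCF : M_CF) (hE1 : M_E1)
    {K : Type} [Field K] [NumberField K] {k : ℕ} {C₁ : ℝ} (hC₁ : 0 ≤ C₁)
    (hk : Module.finrank ℚ K + 5 ≤ k) (α : InfinitePlace K → ℝ)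
    (c c' : InfinitePlace K → ℂ) (Q : InfinitePlace K → ℂ → ℂ)
    (hα : ∀ v, 0 < α v ∧ α v ≤ 1 / 10000) (hc : ∀ v, Rl (rv v) (c v))
    (hc' : ∀ v, Rl (rv v) (c' v))
    (hQ : ∀ v, Am (k + 3) C₁ (rv v) (Q v)) (r e k' : Ideal (𝓞 K)) (X : Finset K) (C : K → ℂ)
    (e₁ e₂ : K → ℂ) (hj : r ⊓ k' ≠ ⊥) (hM : Mz K e ≠ 0) (hX : Rep K (r ⊓ k') (Mz K e) X)
    (hC : ∀ x ∈ Mz K e, ∀ t ∈ ((r ⊓ k' : Ideal (𝓞 K)) : FI K) * Mz K e, C (x + t) = C x)
    (hft : ∀ ν ∈ Nz K r k' e, ft K X C ν = e₁ ν * (starRingEnd ℂ) (e₂ ν)) :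
    ∑' x : {x : K // x ∈ Mz K e}, C x *
      pF (fun v => Cr (rv v) (α v) (c v) (c' v) (Q v)) (fun v => 2 * Real.log (α v))
        (fun _ => 1) x =
      ((DD (Mz K e) (fun v => 2 * Real.log (α v)) /
        (Nf K (r ⊓ k') * Real.sqrt (dK K)) : ℝ) : ℂ) *
      ∑' ν : {ν : K // ν ∈ Nz K r k' e}, e₁ ν * Ep α Q c ν *
        (starRingEnd ℂ) (e₂ ν * Ep α Q c' ν) := by
  classical
  obtain ⟨n, hn⟩ : ∃ n, n = Module.finrank ℚ K := ⟨_, rfl⟩
  have hP : Pos (fun _ : InfinitePlace K => (1 : ℂ)) :=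
    ⟨fun v => norm_one, fun v _ => Complex.one_im⟩
  have hcf : ∀ v, Continuous (Cr (rv v) (α v) (c v) (c' v) (Q v)) ∧
      (∀ u : ℂ, 1 / 1000 < ‖u‖ → Cr (rv v) (α v) (c v) (c' v) (Q v) u = 0) ∧
      ∀ m : ℂ, El (rv v) (α v) (c v) (Q v) m * (starRingEnd ℂ) (El (rv v) (α v) (c' v) (Q v) m) =
        FF (rv v) (Cr (rv v) (α v) (c v) (c' v) (Q v)) m := fun v =>
    hCF (rv v) (α v) (c v) (c' v) (Q v) C₁ (hα v).1 (hα v).2 (Am_mono (hQ v) (by omega))
  obtain ⟨E, hE0, hE⟩ := hE1 (k + 3)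
  have hdec : ∃ C : ℝ, ∀ v ξ, Rl (rv v) ξ →
      ‖FF (rv v) (Cr (rv v) (α v) (c v) (c' v) (Q v)) ξ‖ ≤
        C * (1 + ‖ξ‖) ^ (-(Module.finrank ℚ K + 1 : ℝ)) := by
    refine ⟨∑ v : InfinitePlace K, E * C₁ * (E * C₁) *
      max 1 (α v * ‖c v‖) ^ ((k + 3 : ℕ) : ℝ), ?_⟩
    intro v ξ hξ
    have b1 := (hE (rv v) (α v) (c v) ξ (Q v) C₁ (hα v).1 (hα v).2 (hc v) hξ hC₁ (hQ v)).1
    have b2 := (hE (rv v) (α v) (c' v) ξ (Q v) C₁ (hα v).1 (hα v).2 (hc' v) hξ hC₁ (hQ v)).1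
    have b3 : ‖El (rv v) (α v) (c' v) (Q v) ξ‖ ≤ E * C₁ := by
      refine b2.trans ?_
      have b4 : (1 + ‖ξ‖ / max 1 (α v * ‖c' v‖)) ^ (-((k + 3 : ℕ) : ℝ)) ≤ 1 := by
        refine Real.rpow_le_one_of_one_le_of_nonpos ?_ (neg_nonpos.2 (Nat.cast_nonneg _))
        have : 0 ≤ ‖ξ‖ / max 1 (α v * ‖c' v‖) := by positivity
        linarith
      calc E * C₁ * (1 + ‖ξ‖ / max 1 (α v * ‖c' v‖)) ^ (-((k + 3 : ℕ) : ℝ)) ≤ E * C₁ * 1 :=
            mul_le_mul_of_nonneg_left b4 (by positivity)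
        _ = E * C₁ := mul_one _
    rw [← (hcf v).2.2 ξ, norm_mul, RCLike.norm_conj]
    have b5 := decay (m := ‖ξ‖) (k := k + 3) (n := Module.finrank ℚ K) (A := E * C₁)
      (B := E * C₁) (X := max 1 (α v * ‖c v‖)) (le_max_left _ _) (norm_nonneg _) (by omega)
      (by positivity) (by positivity) (norm_nonneg _) b1 b3
    refine b5.trans ?_
    refine mul_le_mul_of_nonneg_right ?_ (by positivity)
    exact Finset.single_le_sum
      (f := fun v : InfinitePlace K => E * C₁ * (E * C₁) *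
        max 1 (α v * ‖c v‖) ^ ((k + 3 : ℕ) : ℝ)) (fun w _ => by positivity) (Finset.mem_univ v)
  have h1 := (hPO K (r ⊓ k') (Mz K e) X C
    (fun v => Cr (rv v) (α v) (c v) (c' v) (Q v)) hj hM hX hC (fun v => (hcf v).1)
    ⟨1 / 1000, fun v w hw => (hcf v).2.1 w hw⟩ hdec (fun v => 2 * Real.log (α v))
    (fun _ => 1) hP).2
  rw [h1]
  congr 1
  refine tsum_congr fun ν => ?_
  rw [hft ν.1 ν.2]
  have h4 : ∏ v, FF (rv v) (Cr (rv v) (α v) (c v) (c' v) (Q v))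
      (2 * Real.pi * dg (rv v) * wv v (ν : K) (-fun v => 2 * Real.log (α v))
        (fun v => (starRingEnd ℂ) (1 : ℂ))) =
      Ep α Q c ν * (starRingEnd ℂ) (Ep α Q c' ν) := by
    unfold Ep
    rw [map_prod, ← Finset.prod_mul_distrib]
    refine Finset.prod_congr rfl fun v _ => ?_
    rw [(hcf v).2.2]
    congr 1
    unfold mc wv
    have h3 : Real.exp ((-fun v : InfinitePlace K => 2 * Real.log (α v)) v / 2) = (α v)⁻¹ := by
      rw [Pi.neg_apply]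
      rw [show -(2 * Real.log (α v)) / 2 = -Real.log (α v) by ring, Real.exp_neg,
        Real.exp_log (hα v).1]
    rw [h3, map_one]
    push_cast
    ring
  rw [h4, map_mul]
  ring

theorem DD_eq {K : Type} [Field K] [NumberField K] (hLN : D_LN) (α : InfinitePlace K → ℝ)
    (hα : ∀ v, 0 < α v) (e : Ideal (𝓞 K)) (he : e ≠ ⊥) :
    DD (Mz K e) (fun v => 2 * Real.log (α v)) =
      Nf K e / (PP α * 2 ^ Module.finrank ℚ K) := by
  obtain ⟨-, -, h, -⟩ := hLN K e ⊤ ⊤ he top_ne_bot top_ne_bot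
  rw [h]
  have h1 : Real.exp (-(∑ v : InfinitePlace K, (v.mult : ℝ) * (2 * Real.log (α v))) / 2) =
      (PP α)⁻¹ := by
    have h2 : -(∑ v : InfinitePlace K, (v.mult : ℝ) * (2 * Real.log (α v))) / 2 =
        -∑ v : InfinitePlace K, (v.mult : ℝ) * Real.log (α v) := by
      rw [← Finset.sum_neg_distrib, ← Finset.sum_neg_distrib, Finset.sum_div]
      refine Finset.sum_congr rfl fun v _ => ?_
      ring
    rw [h2, Real.exp_neg, Real.exp_sum]
    unfold PP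
    congr 1
    refine Finset.prod_congr rfl fun v _ => ?_
    rw [mul_comm, Real.exp_mul, Real.exp_log (hα v), Real.rpow_natCast]
  rw [h1]
  field_simp

theorem Nf_pos {K : Type} [Field K] [NumberField K] {f : Ideal (𝓞 K)} (hf : f ≠ ⊥) :
    0 < Nf K f := by
  unfold Nf
  have : Ideal.absNorm f ≠ 0 := by
    rw [Ne, Ideal.absNorm_eq_zero_iff]
    exact hf
  positivity

theorem Nf_one_le {K : Type} [Field K] [NumberField K] {f : Ideal (𝓞 K)} (hf : f ≠ ⊥) :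
    1 ≤ Nf K f := by
  unfold Nf
  have : Ideal.absNorm f ≠ 0 := by
    rw [Ne, Ideal.absNorm_eq_zero_iff]
    exact hf
  exact_mod_cast Nat.one_le_iff_ne_zero.2 this

theorem Nf_le {K : Type} [Field K] [NumberField K] {f g : Ideal (𝓞 K)} (hf : f ≠ ⊥)
    (h : f ≤ g) : Nf K g ≤ Nf K f := by
  unfold Nf
  have h1 : Ideal.absNorm g ∣ Ideal.absNorm f := Ideal.absNorm_dvd_absNorm_of_le h
  have h2 : Ideal.absNorm f ≠ 0 := by
    rw [Ne, Ideal.absNorm_eq_zero_iff]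
    exact hf
  exact_mod_cast Nat.le_of_dvd (Nat.pos_of_ne_zero h2) h1

/-- the final computation -/
theorem final {S T a X Y D Nr Nk Ne Ng Nj NG Mn Z : ℝ} {n : ℕ} (hT : 0 ≤ T) (ha : 0 < a)
    (hX : 0 < X) (hY : 0 < Y) (hD : 0 < D) (hNr : 1 ≤ Nr) (hNk : 0 < Nk) (hNe : 0 < Ne)
    (hNg : 0 < Ng) (hNj : 0 < Nj) (hNG : 0 < NG) (hMn : 0 ≤ Mn) (hZ : 0 ≤ Z)
    (hj : Nj ≤ Nr * Nk) (hG : NG ≤ Ng * Nr)
    (h : Ne / (a * 2 ^ n) / (Nj * D) * S ≤ Mn * T + Mn * (NG / Nk) ^ (1 / 2 : ℝ) *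
      X ^ (-(1 / 2) : ℝ) * (Z * (Ne / (a * 2 ^ n) / Ng * (X / Y)))) :
    S ≤ Mn * (2 ^ n + Z) * (D * Nr ^ 2 * (a * (Nk / Ne) * T +
      (Nk / NG) ^ (1 / 2 : ℝ) * X ^ (1 / 2 : ℝ) / Y)) := by
  have hXX : X ^ (-(1 / 2) : ℝ) * X = X ^ (1 / 2 : ℝ) := by
    rw [← Real.rpow_add_one hX.ne']
    norm_num
  obtain ⟨x, hx⟩ : ∃ x, x = X ^ (1 / 2 : ℝ) := ⟨_, rfl⟩
  obtain ⟨u, hu⟩ : ∃ u, u = (NG / Nk) ^ (1 / 2 : ℝ) := ⟨_, rfl⟩
  have u0 : 0 < u := by rw [hu]; positivity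
  have x0 : 0 < x := by rw [hx]; positivity
  have hv : (Nk / NG) ^ (1 / 2 : ℝ) = u⁻¹ := by
    rw [hu, ← Real.inv_rpow (by positivity), inv_div]
  have huu : u * u = NG / Nk := by
    rw [hu, ← Real.rpow_add (by positivity)]
    norm_num
  rw [hv, ← hx]
  rw [← hu] at h
  have h1 : S = (a * 2 ^ n * D * Nj / Ne) * (Ne / (a * 2 ^ n) / (Nj * D) * S) := by
    field_simp
  have h2 : S ≤ (a * 2 ^ n * D * Nj / Ne) * (Mn * T + Mn * u *
      X ^ (-(1 / 2) : ℝ) * (Z * (Ne / (a * 2 ^ n) / Ng * (X / Y)))) := by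
    calc S = (a * 2 ^ n * D * Nj / Ne) * (Ne / (a * 2 ^ n) / (Nj * D) * S) := h1
      _ ≤ _ := mul_le_mul_of_nonneg_left h (by positivity)
  have h3 : (a * 2 ^ n * D * Nj / Ne) * (Mn * T + Mn * u *
      X ^ (-(1 / 2) : ℝ) * (Z * (Ne / (a * 2 ^ n) / Ng * (X / Y)))) =
      Mn * D * (2 ^ n * (a * (Nj / Ne) * T) + Z * (u * (Nj / Ng) * (x / Y))) := by
    rw [hx, ← hXX]
    field_simp
  rw [h3] at h2
  have p1 : Nj / Ne ≤ Nr ^ 2 * (Nk / Ne) := by
    rw [mul_div_assoc', div_le_div_iff_of_pos_right hNe]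
    calc Nj ≤ Nr * Nk := hj
      _ ≤ Nr ^ 2 * Nk := mul_le_mul_of_nonneg_right (by nlinarith) hNk.le
  have p2 : u * (Nj / Ng) ≤ Nr ^ 2 * u⁻¹ := by
    have q1 : Nj / Ng ≤ Nr ^ 2 * (Nk / NG) := by
      rw [mul_div_assoc', div_le_div_iff₀ hNg hNG]
      calc Nj * NG ≤ (Nr * Nk) * (Ng * Nr) := mul_le_mul hj hG hNG.le (by positivity)
        _ = Nr ^ 2 * Nk * Ng := by ring
    have q2 : Nk / NG = (u * u)⁻¹ := by rw [huu, inv_div]
    rw [q2] at q1
    calc u * (Nj / Ng) ≤ u * (Nr ^ 2 * (u * u)⁻¹) := mul_le_mul_of_nonneg_left q1 u0.le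
      _ = Nr ^ 2 * u⁻¹ := by field_simp
  have p3 : a * (Nj / Ne) * T ≤ Nr ^ 2 * (a * (Nk / Ne) * T) := by
    calc a * (Nj / Ne) * T ≤ a * (Nr ^ 2 * (Nk / Ne)) * T :=
          mul_le_mul_of_nonneg_right (mul_le_mul_of_nonneg_left p1 ha.le) hT
      _ = _ := by ring
  have p4 : u * (Nj / Ng) * (x / Y) ≤ Nr ^ 2 * (u⁻¹ * x / Y) := by
    calc u * (Nj / Ng) * (x / Y) ≤ Nr ^ 2 * u⁻¹ * (x / Y) :=
          mul_le_mul_of_nonneg_right p2 (by positivity)
      _ = _ := by ring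
  have p5 : 0 ≤ a * (Nk / Ne) * T := by positivity
  have p6 : 0 ≤ u⁻¹ * x / Y := by positivity
  calc S ≤ Mn * D * (2 ^ n * (a * (Nj / Ne) * T) + Z * (u * (Nj / Ng) * (x / Y))) := h2
    _ ≤ Mn * D * (2 ^ n * (Nr ^ 2 * (a * (Nk / Ne) * T)) +
        Z * (Nr ^ 2 * (u⁻¹ * x / Y))) := by gcongr
    _ ≤ Mn * D * ((2 ^ n + Z) * (Nr ^ 2 * (a * (Nk / Ne) * T + u⁻¹ * x / Y))) := by
        refine mul_le_mul_of_nonneg_left ?_ (by positivity)
        have q1 : 0 ≤ Z * (Nr ^ 2 * (a * (Nk / Ne) * T)) := by positivity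
        have q2 : 0 ≤ (2 : ℝ) ^ n * (Nr ^ 2 * (u⁻¹ * x / Y)) := by positivity
        nlinarith
    _ = _ := by ring

theorem pf_PS (hPO : Pool.Agent.H31.SX.X_PO) (hCF : M_CF) (hCB : M_CB) (hE1 : M_E1)
    (hWZ : M_WZ) (hLN : D_LN) (hRX : Pool.Agent.H28.RC.T_RX) : D_PS := by
  classical
  intro n k C₁ hn0 hk hC₁
  obtain ⟨B, hB0, hB⟩ := hCB k
  obtain ⟨Z, hZ1, hZ⟩ := hWZ n hn0
  obtain ⟨M, hM⟩ : ∃ M, M = max 1 (B * C₁ ^ 2) := ⟨_, rfl⟩
  have M1 : 1 ≤ M := by rw [hM]; exact le_max_left _ _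
  have MB : B * C₁ ^ 2 ≤ M := by rw [hM]; exact le_max_right _ _
  refine ⟨M ^ n * (2 ^ n + Z), by positivity, ?_⟩
  intro K _ _ hn r e k' ι I γ E α τ c c' Q hr he hk' hCO hα hc hc' hQ i hi j hj
  have α0 : ∀ v, 0 < α v := fun v => (hα v).1
  have hP : Pos (fun _ : InfinitePlace K => (1 : ℂ)) :=
    ⟨fun v => norm_one, fun v _ => Complex.one_im⟩
  obtain ⟨hMz, hNz, -, -, hN1, hN2, hsub, -⟩ := hLN K e r k' he hr hk'
  obtain ⟨C, g, hg, hG, hper, hnorm, hsupp, h00, hft⟩ := hCO.cor i hi j hj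
  have hrk : r ⊓ k' ≠ ⊥ := by
    intro h
    rcases (Ideal.mul_le_inf (I := r) (J := k')) with h1
    rw [h, le_bot_iff, ← Ideal.zero_eq_bot, mul_eq_zero] at h1
    rcases h1 with h1 | h1
    · exact hr h1
    · exact hk' h1
  obtain ⟨X, hX, -⟩ := hRX K (r ⊓ k') (Mz K e) hrk hMz
  have h1 := poisson hPO hCF hE1 hC₁ (by rw [hn]; exact hk) α c c' Q hα hc.real hc'.real hQ
    r e k' X C (E i) (E j) hrk hMz hX hper (hft X hX)
  rw [DD_eq hLN α α0 e he, hn] at h1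
  have hGb : k' ⊔ Ideal.span {γ i - γ j} ≠ ⊥ := by
    intro h
    exact hk' (le_bot_iff.1 (h ▸ le_sup_left))
  have th0 : ∀ v, 0 < th1 α c c' v := by
    intro v
    unfold th1
    have := α0 v
    positivity
  have bt0 : ∀ v, 0 < bt α τ v := fun v => lt_of_lt_of_le one_pos (le_max_left _ _)
  have PPα : 0 < PP α := Finset.prod_pos fun v _ => pow_pos (α0 v) _
  have PPt : 0 < PP (th1 α c c') := Finset.prod_pos fun v _ => pow_pos (th0 v) _
  have PPb : 0 < PP (bt α τ) := Finset.prod_pos fun v _ => pow_pos (bt0 v) _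
  have dK0 : 0 < dK K := by
    unfold dK
    have : (discr K : ℝ) ≠ 0 := by exact_mod_cast discr_ne_zero K
    positivity
  have NG0 := Nf_pos hGb
  have Nk0 := Nf_pos hk'
  have Ne0 := Nf_pos he
  have Ng0 := Nf_pos hg
  have Nj0 := Nf_pos hrk
  have Nr1 := Nf_one_le hr
  -- the bounds
  have hloc : ∀ v u, Rl (rv v) u → ‖Cr (rv v) (α v) (c v) (c' v) (Q v) u‖ ≤
      M * (th1 α c c' v ^ (-(dg (rv v) : ℝ) / 2) *
        (1 + ‖u‖ / (th1 α c c' v / bt α τ v)) ^ (-(k : ℝ))) := by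
    intro v u hu
    have b1 := (hB (rv v) (α v) (τ v) (c v) (c' v) u (Q v) C₁ (α0 v) (hα v).2 (hc.one v)
      (hc.low v) (hc.upp v) (hc.real v) (hc'.real v) hu hC₁ (hQ v)).1
    have b2 : max 1 (α v * τ v) * ‖u‖ / (1 + α v * ‖c v - c' v‖) =
        ‖u‖ / (th1 α c c' v / bt α τ v) := by
      have := th0 v
      have := bt0 v
      unfold th1 bt at *
      field_simp
    rw [b2] at b1
    refine b1.trans ?_
    have := th0 v
    have := bt0 v
    rw [mul_assoc]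
    refine mul_le_mul_of_nonneg_right MB ?_
    unfold th1 at *
    positivity
  have hloc0 : ∀ v, ‖Cr (rv v) (α v) (c v) (c' v) (Q v) 0‖ ≤
      M * th1 α c c' v ^ (-(k : ℝ)) := by
    intro v
    have b1 := (hB (rv v) (α v) (τ v) (c v) (c' v) 0 (Q v) C₁ (α0 v) (hα v).2 (hc.one v)
      (hc.low v) (hc.upp v) (hc.real v) (hc'.real v) (Pool.Agent.H31.SW.Rl_zero _) hC₁
      (hQ v)).2
    refine b1.trans ?_
    have := th0 v
    refine mul_le_mul_of_nonneg_right MB ?_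
    unfold th1 at *
    positivity
  have hcard : Fintype.card (InfinitePlace K) ≤ n := card_places_le hn
  have hMn : ∏ _v : InfinitePlace K, M ≤ M ^ n := by
    rw [Finset.prod_const]
    exact pow_le_pow_right₀ M1 hcard
  obtain ⟨T, hT⟩ : ∃ T : ℝ, T = if ∀ t ∈ r, (γ i - γ j) * t ∈ k' then
      ∏ v : InfinitePlace K, th1 α c c' v ^ (-(k : ℝ)) else 0 := ⟨_, rfl⟩
  have PT0 : 0 ≤ ∏ v : InfinitePlace K, th1 α c c' v ^ (-(k : ℝ)) :=
    Finset.prod_nonneg fun v _ => by have := th0 v; positivity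
  have T0 : 0 ≤ T := by
    rw [hT]
    split_ifs
    · exact PT0
    · exact le_rfl
  have hC1 : ∀ x ∈ Mz K e, ‖C x‖ ≤
      (Nf K (k' ⊔ Ideal.span {γ i - γ j}) / Nf K k') ^ (1 / 2 : ℝ) := by
    intro x hx
    rw [← Real.sqrt_eq_rpow]
    exact Real.le_sqrt_of_sq_le (hnorm x hx)
  have hC01 : ‖C 0‖ ≤ 1 := by
    refine (hC1 0 (Mz K e).zero_mem).trans ?_
    refine Real.rpow_le_one (by positivity) ?_ (by norm_num)
    rw [div_le_one Nk0]
    exact Nf_le hk' le_sup_left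
  have hb0 : ‖C 0 * pF (fun v => Cr (rv v) (α v) (c v) (c' v) (Q v))
      (fun v => 2 * Real.log (α v)) (fun _ => 1) (0 : K)‖ ≤ M ^ n * T := by
    by_cases h0 : C 0 = 0
    · rw [h0, zero_mul, norm_zero]
      positivity
    · have h2 := h00 h0
      rw [hT, if_pos h2, norm_mul]
      have h3 : ‖pF (fun v => Cr (rv v) (α v) (c v) (c' v) (Q v))
          (fun v => 2 * Real.log (α v)) (fun _ => 1) (0 : K)‖ ≤
          M ^ n * ∏ v : InfinitePlace K, th1 α c c' v ^ (-(k : ℝ)) := by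
        unfold pF
        rw [norm_prod]
        calc ∏ v : InfinitePlace K, ‖Cr (rv v) (α v) (c v) (c' v) (Q v)
              (wv v (0 : K) (fun v => 2 * Real.log (α v)) (fun _ => 1))‖ ≤
              ∏ v : InfinitePlace K, M * th1 α c c' v ^ (-(k : ℝ)) := by
                refine Finset.prod_le_prod (fun v _ => norm_nonneg _) fun v _ => ?_
                rw [wv_zero]
                exact hloc0 v
          _ = (∏ _v : InfinitePlace K, M) *
              ∏ v : InfinitePlace K, th1 α c c' v ^ (-(k : ℝ)) := Finset.prod_mul_distrib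
          _ ≤ _ := mul_le_mul_of_nonneg_right hMn PT0
      calc ‖C 0‖ * ‖pF (fun v => Cr (rv v) (α v) (c v) (c' v) (Q v))
            (fun v => 2 * Real.log (α v)) (fun _ => 1) (0 : K)‖ ≤
          1 * (M ^ n * ∏ v : InfinitePlace K, th1 α c c' v ^ (-(k : ℝ))) :=
            mul_le_mul hC01 h3 (norm_nonneg _) zero_le_one
        _ = _ := one_mul _
  have hgsub : ∀ x ∈ (g : FI K) * Mz K e, x ∈ Mz K e := by
    intro x hx
    have h2 : (g : FI K) * Mz K e ≤ 1 * Mz K e :=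
      mul_le_mul_left (FractionalIdeal.coeIdeal_le_one) _
    rw [one_mul] at h2
    exact h2 hx
  have hb1 : ∀ x ∈ (g : FI K) * Mz K e, x ≠ 0 →
      ‖C x * pF (fun v => Cr (rv v) (α v) (c v) (c' v) (Q v)) (fun v => 2 * Real.log (α v))
        (fun _ => 1) x‖ ≤ M ^ n * (Nf K (k' ⊔ Ideal.span {γ i - γ j}) / Nf K k') ^ (1 / 2 : ℝ) *
          PP (th1 α c c') ^ (-(1 / 2) : ℝ) *
        ∏ v : InfinitePlace K, (1 + ‖wv v x (fun v => 2 * Real.log (α v)) (fun _ => 1)‖ /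
          (fun v => th1 α c c' v / bt α τ v) v) ^ (-(k : ℝ)) := by
    intro x hx _
    rw [norm_mul]
    have h3 : ‖pF (fun v => Cr (rv v) (α v) (c v) (c' v) (Q v)) (fun v => 2 * Real.log (α v))
        (fun _ => 1) x‖ ≤ M ^ n * (PP (th1 α c c') ^ (-(1 / 2) : ℝ) *
          ∏ v : InfinitePlace K, (1 + ‖wv v x (fun v => 2 * Real.log (α v)) (fun _ => 1)‖ /
            (th1 α c c' v / bt α τ v)) ^ (-(k : ℝ))) := by
      unfold pF
      rw [norm_prod]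
      calc ∏ v : InfinitePlace K, ‖Cr (rv v) (α v) (c v) (c' v) (Q v)
            (wv v x (fun v => 2 * Real.log (α v)) (fun _ => 1))‖ ≤
            ∏ v : InfinitePlace K, M * (th1 α c c' v ^ (-(dg (rv v) : ℝ) / 2) *
              (1 + ‖wv v x (fun v => 2 * Real.log (α v)) (fun _ => 1)‖ /
                (th1 α c c' v / bt α τ v)) ^ (-(k : ℝ))) := by
              refine Finset.prod_le_prod (fun v _ => norm_nonneg _) fun v _ => ?_
              exact hloc v _ (Rl_wv v x _ hP)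
        _ = (∏ _v : InfinitePlace K, M) * (PP (th1 α c c') ^ (-(1 / 2) : ℝ) *
            ∏ v : InfinitePlace K, (1 + ‖wv v x (fun v => 2 * Real.log (α v)) (fun _ => 1)‖ /
              (th1 α c c' v / bt α τ v)) ^ (-(k : ℝ))) := by
            rw [Finset.prod_mul_distrib, Finset.prod_mul_distrib, prod_dg _ th0]
        _ ≤ M ^ n * (PP (th1 α c c') ^ (-(1 / 2) : ℝ) *
            ∏ v : InfinitePlace K, (1 + ‖wv v x (fun v => 2 * Real.log (α v)) (fun _ => 1)‖ /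
              (th1 α c c' v / bt α τ v)) ^ (-(k : ℝ))) := by
            refine mul_le_mul_of_nonneg_right hMn ?_
            refine mul_nonneg (by positivity) ?_
            exact Finset.prod_nonneg fun v _ => by
              have := th0 v
              have := bt0 v
              positivity
    calc ‖C x‖ * ‖pF (fun v => Cr (rv v) (α v) (c v) (c' v) (Q v))
          (fun v => 2 * Real.log (α v)) (fun _ => 1) x‖ ≤
        (Nf K (k' ⊔ Ideal.span {γ i - γ j}) / Nf K k') ^ (1 / 2 : ℝ) *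
        (M ^ n * (PP (th1 α c c') ^ (-(1 / 2) : ℝ) *
          ∏ v : InfinitePlace K, (1 + ‖wv v x (fun v => 2 * Real.log (α v)) (fun _ => 1)‖ /
            (th1 α c c' v / bt α τ v)) ^ (-(k : ℝ)))) :=
          mul_le_mul (hC1 x (hgsub x hx)) h3 (norm_nonneg _) (by positivity)
      _ = _ := by ring
  have J0 : ∀ v, 0 < (fun v => th1 α c c' v / bt α τ v) v := fun v => div_pos (th0 v) (bt0 v)
  obtain ⟨hgM, hgD⟩ := hsub g (Mz K e) (fun v => 2 * Real.log (α v)) hg hMz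
  have hz := hZ K hn ((g : FI K) * Mz K e)
    (fun v => 2 * Real.log (α v)) (fun _ => 1) (fun v => th1 α c c' v / bt α τ v) k hgM hP J0
    (by omega)
  have h2 := norm_tsum_sub (Mz K e) ((g : FI K) * Mz K e) hgsub
    (fun x => C x * pF (fun v => Cr (rv v) (α v) (c v) (c' v) (Q v))
      (fun v => 2 * Real.log (α v)) (fun _ => 1) x) _ _ _ hb0
    (fun x hx hfx => hsupp x hx fun h => hfx (by rw [h, zero_mul])) hb1 hz.1
  have hJ : PP (fun v => th1 α c c' v / bt α τ v) = PP (th1 α c c') / PP (bt α τ) := by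
    unfold PP
    rw [← Finset.prod_div_distrib]
    exact Finset.prod_congr rfl fun v _ => div_pow _ _ _
  have h4 := hz.2
  rw [hgD, DD_eq hLN α α0 e he, hn, hJ] at h4
  have h5 : 0 ≤ M ^ n * (Nf K (k' ⊔ Ideal.span {γ i - γ j}) / Nf K k') ^ (1 / 2 : ℝ) *
      PP (th1 α c c') ^ (-(1 / 2) : ℝ) := by positivity
  have h3 := h2.trans (add_le_add_right (mul_le_mul_of_nonneg_left h4 h5) (M ^ n * T))
  rw [h1, norm_mul, Complex.norm_real, Real.norm_eq_abs,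
    abs_of_pos (by positivity)] at h3
  have h6 := final T0 PPα PPt PPb (Real.sqrt_pos.2 dK0) Nr1 Nk0 Ne0 Ng0 Nj0 NG0
    (by positivity) (by positivity) hN2 hG h3
  refine h6.trans (le_of_eq ?_)
  congr 3
  rw [hT]
  split_ifs
  · rfl
  · rw [mul_zero]

end Pool.Agent.H40.DM.PS
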